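import Pool.Agent.L0h41.SI.G

set_option autoImplicit false

/-!
# Almost primes in short intervals and progressions
-/

namespace Pool.Agent.L0h41.SI

open Finset Polynomial Filter
open Pool.Agent.W123.RP Pool.Agent.H373R2.T7 Pool.Agent.W123.RU Pool.Agent.TH464.PO
open Pool.Agent.W123.RU.Poly
open Pool.Agent.W23.DC Pool.Agent.Y882 Pool.Agent.Y882.KW Pool.Agent.Y882.SI
open Pool.Agent.Y882.PX Pool.Agent.Y882.MG
open Pool.Agent.L0h41.LW

/-- the condition on `m` -/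
def Gd (a b c : ℤ) (q v r : ℕ) (z : ℝ) (m : ℕ) : Prop :=
  m ≡ v [MOD q] ∧ (a * (m : ℤ) ^ 2 + b * m + c).natAbs.primeFactorsList.length ≤ r ∧
    ∀ p : ℕ, p.Prime → (p : ℤ) ∣ a * (m : ℤ) ^ 2 + b * m + c → z ≤ p

open Classical in
/-- the number of the `m` in `(M, M + H]` with `m ≡ v` modulo `q` such that `f m` has at most `r` prime
factors, all at least `z` -/
noncomputable def hc (a b c : ℤ) (q v r : ℕ) (z : ℝ) (M H : ℕ) : ℕ :=
  ((Ioc M (M + H)).filter (fun m => Gd a b c q v r z m)).card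

/-- the hypotheses on the polynomial -/
structure Hyp (a b c : ℤ) (c1 : ℕ) (v0 : ℝ) : Prop where
  ha : a ≠ 0
  hΔ : ¬ IsSquare (b ^ 2 - 4 * a * c)
  few : ∀ p : ℕ, p.Prime → nuB (DQ (Fq a b c)) p ≤ c1
  two : 2 ≤ c1
  adm : ∀ p : ℕ, p.Prime → nuB (DQ (Fq a b c)) p < p
  pos : 0 < v0
  V : ∀ y : ℕ, 3 ≤ y → v0 / Real.log y ≤ Vq (DQ (Fq a b c)) y

open Classical in
/-- fibres of the division by `q` -/
theorem fib_div (q X : ℕ) (hq : 0 < q) (A : Finset ℕ) :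
    ((Icc 1 X).filter (fun M => M / q ∈ A)).card ≤ q * A.card := by
  have h1 : (Icc 1 X).filter (fun M => M / q ∈ A) ⊆
      A.biUnion (fun N => Ico (N * q) (N * q + q)) := by
    intro M hM
    rw [mem_filter] at hM
    rw [mem_biUnion]
    refine ⟨M / q, hM.2, ?_⟩
    rw [mem_Ico]
    have h2 := Nat.div_add_mod M q
    have h3 := Nat.mod_lt M hq
    rw [mul_comm] at h2
    omega
  refine (card_le_card h1).trans (card_biUnion_le.trans ?_)
  have h4 : ∀ N ∈ A, (Ico (N * q) (N * q + q)).card = q := by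
    intro N _
    rw [Nat.card_Ico]
    omega
  rw [sum_congr rfl h4, sum_const, smul_eq_mul, mul_comm]

set_option maxHeartbeats 4000000 in
open Classical in
/-- one residue class -/
theorem one_class (a b c : ℤ) (c1 : ℕ) (v0 : ℝ) (hy : Hyp a b c c1 v0)
    (r : ℕ) (τ ζ υ lam S : ℝ) (hζ : 0 < ζ) (h2 : 2 * ζ < τ)
    (h4 : τ ≤ 4 * ζ) (hτ : τ < 1) (hτ2 : 1 / 2 ≤ τ) (hζυ : ζ ≤ υ) (hυτ : υ < τ)
    (hlam : 0 < lam)
    (hJ0 : ∫ x in ζ..υ, (lam - lam / υ * x) / (τ - x) / x < Real.log (τ / ζ - 1) / τ) (hS : 2 < S)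
    (hr : 1 / lam + S / υ ≤ r + 1) (h ε κ : ℝ) (hh1 : h ≤ τ) (hε : 0 < ε)
    (hκ0 : 0 < κ) (hκζ : κ ≤ ζ / 4) (hκh : κ ≤ h / 4) :
    ∃ δ : ℝ, 0 < δ ∧ ∃ X0 : ℕ, ∀ X : ℕ, X0 ≤ X → ∀ q v : ℕ, 0 < q → (q : ℝ) ≤ (X : ℝ) ^ κ → v < q →
      Cop a b c q v →
      (((Icc 1 (2 * X)).filter (fun M => (hc a b c q v r ((X : ℝ) ^ ζ) M ⌊(X : ℝ) ^ h⌋₊ : ℝ) <
        δ * (X : ℝ) ^ h / (q * dens a b c q * Real.log X))).card : ℝ) ≤
      8 * (X : ℝ) ^ (2 * τ - h + 2 * κ + ε) := by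
  have hυ0 : 0 < υ := by linarith
  have hυ1 : υ ≤ 1 := by linarith
  have hh : 0 < h := by linarith
  obtain ⟨hv0a, hv0⟩ : v0 ≤ v0 ∧ 0 < v0 := ⟨le_rfl, hy.pos⟩
  obtain ⟨δ, ε₁, η, hδ, hε₁, hε₁ζ, hη, Y1, HE⟩ := engL c1 τ ζ υ lam (lam / υ) ε v0
    hζ h2 h4 hτ hζυ hυτ hlam.le (by positivity) (by rw [div_mul_cancel₀ _ hυ0.ne']) hJ0
    hε hv0
  obtain ⟨Y2, HM⟩ := eventually_atTop.1 (mer_G a b c hy.ha hy.hΔ c1 hy.few ε₁ υ η hε₁ hυ1 hη)
  obtain ⟨D, hD⟩ : ∃ D : ℕ, D = a.natAbs + (b ^ 2 - 4 * a * c).natAbs := ⟨_, rfl⟩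
  obtain ⟨E, hE⟩ : ∃ E : ℕ, E = a.natAbs + b.natAbs + c.natAbs := ⟨_, rfl⟩
  have ev1 : ∀ᶠ Y : ℕ in atTop, (D : ℝ) + 1 ≤ (Y : ℝ) ^ (ζ / 2) :=
    ((tendsto_rpow_atTop (by linarith)).comp tendsto_natCast_atTop_atTop).eventually_ge_atTop _
  have ev2 : ∀ᶠ Y : ℕ in atTop, (16 : ℝ) ≤ (Y : ℝ) ^ (h / 2) :=
    ((tendsto_rpow_atTop (by linarith)).comp tendsto_natCast_atTop_atTop).eventually_ge_atTop _
  have ev4 : ∀ᶠ Y : ℕ in atTop, (E : ℝ) * 16 ≤ (Y : ℝ) ^ (S - 2) :=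
    ((tendsto_rpow_atTop (by linarith)).comp tendsto_natCast_atTop_atTop).eventually_ge_atTop _
  obtain ⟨Y4, hY4⟩ := eventually_atTop.1
    (ev1.and (ev2.and (ev4.and (eventually_ge_atTop 3))))
  refine ⟨δ * v0 / 2, by positivity, max (max Y1 Y2) Y4, ?_⟩
  intro X hX q v hq hqX hvq hcop
  obtain ⟨e1, e2, e4, e5⟩ := hY4 X ((le_max_right _ _).trans hX)
  have hX1 : Y1 ≤ X := ((le_max_left _ _).trans (le_max_left _ _)).trans hX
  have hX2 : Y2 ≤ X := ((le_max_right _ _).trans (le_max_left _ _)).trans hX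
  have hXr : (3 : ℝ) ≤ X := by exact_mod_cast e5
  have hX0 : (0 : ℝ) < X := by linarith
  have hX1r : (1 : ℝ) ≤ X := by linarith
  have hlX : 0 < Real.log X := Real.log_pos (by linarith)
  have hqr : (1 : ℝ) ≤ q := by exact_mod_cast hq
  have hq0 : (0 : ℝ) < q := by linarith
  have hpw1 : ∀ w : ℝ, w ≤ 1 → (X : ℝ) ^ w ≤ X := by
    intro w hw
    calc (X : ℝ) ^ w ≤ (X : ℝ) ^ (1 : ℝ) := Real.rpow_le_rpow_of_exponent_le hX1r hw
      _ = X := Real.rpow_one _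
  have hqXn : q ≤ X := by
    have : (q : ℝ) ≤ X := hqX.trans (hpw1 _ (by linarith))
    exact_mod_cast this
  set H : ℕ := ⌊(X : ℝ) ^ h⌋₊ with hH
  have hHle : (H : ℝ) ≤ (X : ℝ) ^ h := Nat.floor_le (by positivity)
  have hHge : (X : ℝ) ^ h - 1 < H := by
    have := Nat.lt_floor_add_one ((X : ℝ) ^ h)
    rw [← hH] at this
    linarith
  have hHX : (H : ℝ) ≤ X := hHle.trans (hpw1 _ (by linarith))
  have hHXn : H ≤ X := by exact_mod_cast hHX
  -- the length of the windows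
  have hXhq : (16 : ℝ) ≤ (X : ℝ) ^ h / q := by
    rw [le_div_iff₀ hq0]
    calc (16 : ℝ) * q ≤ (X : ℝ) ^ (h / 2) * (X : ℝ) ^ κ := by gcongr
      _ = (X : ℝ) ^ (h / 2 + κ) := (Real.rpow_add hX0 _ _).symm
      _ ≤ (X : ℝ) ^ h := Real.rpow_le_rpow_of_exponent_le hX1r (by linarith)
  obtain ⟨L, hL⟩ : ∃ L : ℕ, L = H / q - 1 := ⟨_, rfl⟩
  have hHq : (X : ℝ) ^ h / q - 2 < ((H / q : ℕ) : ℝ) := by
    have u1 : H < q * (H / q) + q := by
      have := Nat.div_add_mod H q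
      have := Nat.mod_lt H hq
      omega
    have u2 : (H : ℝ) < q * ((H / q : ℕ) : ℝ) + q := by exact_mod_cast u1
    rw [sub_lt_iff_lt_add, div_lt_iff₀ hq0]
    nlinarith
  have hHq2 : 2 ≤ H / q := by
    have : (2 : ℝ) ≤ ((H / q : ℕ) : ℝ) := by linarith
    exact_mod_cast this
  have hL1 : 1 ≤ L := by omega
  have hLr : (X : ℝ) ^ h / (2 * q) ≤ L := by
    have u1 : ((H / q : ℕ) : ℝ) = L + 1 := by
      have : H / q = L + 1 := by omega
      rw [this]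
      push_cast
      ring
    have u2 : (X : ℝ) ^ h / (2 * q) = (X : ℝ) ^ h / q / 2 := by
      field_simp
    rw [u2]
    linarith
  have hLq : q * (L + 1) ≤ H := by
    have u1 : L + 1 = H / q := by omega
    rw [u1]
    exact Nat.mul_div_le H q
  have hL0 : (0 : ℝ) < L := by exact_mod_cast hL1
  have hLX : (L : ℝ) ≤ (X : ℝ) ^ (2 * τ - υ) := by
    have u1 : L ≤ H := by
      have : H / q ≤ H := Nat.div_le_self _ _
      omega
    calc (L : ℝ) ≤ H := by exact_mod_cast u1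
      _ ≤ (X : ℝ) ^ h := hHle
      _ ≤ _ := Real.rpow_le_rpow_of_exponent_le hX1r (by linarith)
  have hlo := lo_G a b c hy.adm v0 hy.V X e5 q v hq hqXn hcop
  have hdp := dens_pos a b c hy.adm q
  have hdl := dens_le a b c hy.adm q
  have hA := HE X hX1 (GG a b c q v) (2 * X) L (ro_le a b c c1 hy.few q v hcop) (by
      intro l hl hlX N H'
      have u0 : (D : ℝ) * (q : ℝ) ^ 2 < l := by
        have u1 : (q : ℝ) ^ 2 ≤ (X : ℝ) ^ (ζ / 2) := by
          calc (q : ℝ) ^ 2 ≤ ((X : ℝ) ^ κ) ^ 2 := by gcongr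
            _ = (X : ℝ) ^ (2 * κ) := by
                rw [← Real.rpow_natCast ((X : ℝ) ^ κ) 2, ← Real.rpow_mul hX0.le]
                congr 1
                push_cast
                ring
            _ ≤ _ := Real.rpow_le_rpow_of_exponent_le hX1r (by linarith)
        have u2 : (0 : ℝ) < (X : ℝ) ^ (ζ / 2) := by positivity
        calc (D : ℝ) * (q : ℝ) ^ 2 ≤ D * (X : ℝ) ^ (ζ / 2) :=
              mul_le_mul_of_nonneg_left u1 (Nat.cast_nonneg _)
          _ < (D + 1) * (X : ℝ) ^ (ζ / 2) := by nlinarith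
          _ ≤ (X : ℝ) ^ (ζ / 2) * (X : ℝ) ^ (ζ / 2) := mul_le_mul_of_nonneg_right e1 u2.le
          _ = (X : ℝ) ^ ζ := by
              rw [← Real.rpow_add hX0]
              congr 1
              ring
          _ ≤ l := hlX
      have u3 : D * q ^ 2 < l := by exact_mod_cast u0
      refine (sq_G a b c hy.ha hy.hΔ q v hq l hl (by rw [← hD]; exact u3) N H').trans ?_
      apply mul_le_mul_of_nonneg_right _ (by positivity)
      exact_mod_cast hy.two) hL1 hLX (by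
        refine le_trans ?_ hlo
        rw [le_div_iff₀ hdp]
        have : 0 ≤ v0 / Real.log X := by positivity
        nlinarith) (HM X hX2 q v hq hqXn hcop)
  set A1 := (Icc 1 (2 * X)).filter (fun N => ((posS (GG a b c q v) X ζ υ lam (lam / υ) L N).card : ℝ) <
          δ * L * lo (GG a b c q v) X) with hA1
  have hsub : (Icc 1 (2 * X)).filter (fun M => (hc a b c q v r ((X : ℝ) ^ ζ) M H : ℝ) <
        δ * v0 / 2 * (X : ℝ) ^ h / (q * dens a b c q * Real.log X)) ⊆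
      Ico 0 q ∪ (Icc 1 (2 * X)).filter (fun M => M / q ∈ A1) := by
    intro M hM
    rw [mem_filter, mem_Icc] at hM
    obtain ⟨⟨hM1, hM2⟩, hM3⟩ := hM
    rw [mem_union]
    rcases lt_or_ge M q with hlt | hge
    · left
      rw [mem_Ico]
      exact ⟨Nat.zero_le _, hlt⟩
    right
    obtain ⟨N, hN⟩ : ∃ N : ℕ, N = M / q := ⟨_, rfl⟩
    have hN1 : 1 ≤ N := by
      rw [hN]
      exact (Nat.one_le_div_iff hq).2 hge
    have hN2 : N ≤ 2 * X := by
      rw [hN]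
      exact (Nat.div_le_self _ _).trans hM2
    have hNM1 : q * N ≤ M := by
      rw [hN]
      exact Nat.mul_div_le M q
    have hNM2 : M < q * N + q := by
      have := Nat.div_add_mod M q
      have := Nat.mod_lt M hq
      rw [hN]
      omega
    rw [mem_filter, mem_Icc]
    refine ⟨⟨hM1, hM2⟩, ?_⟩
    rw [← hN, hA1, mem_filter, mem_Icc]
    refine ⟨⟨hN1, hN2⟩, ?_⟩
    have g3 : (posS (GG a b c q v) X ζ υ lam (lam / υ) L N).card ≤
        hc a b c q v r ((X : ℝ) ^ ζ) M H := by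
      unfold hc
      apply card_le_card_of_injOn (fun j => q * (N + j) + v)
      · intro j hj
        show q * (N + j) + v ∈ _
        unfold posS pos at hj
        rw [mem_coe, mem_filter, mem_filter, mem_Icc] at hj
        obtain ⟨⟨⟨hj3, hj4⟩, hj5⟩, hj6⟩ := hj
        have hval : (GG a b c q v).eval ((N + j : ℕ) : ℤ) =
            a * ((q * (N + j) + v : ℕ) : ℤ) ^ 2 + b * ((q * (N + j) + v : ℕ) : ℤ) + c := by
          rw [GG_eval]
          push_cast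
          ring
        rw [hval] at hj5
        have hjq : q ≤ q * j := Nat.le_mul_of_pos_right _ hj3
        have hjL : q * j ≤ q * L := Nat.mul_le_mul_left _ hj4
        have hexp : q * (N + j) + v = q * N + q * j + v := by ring
        have hexp2 : q * (L + 1) = q * L + q := by ring
        rw [mem_coe, mem_filter, mem_Ioc]
        refine ⟨⟨by omega, by omega⟩, ?_, ?_⟩
        · show (q * (N + j) + v) % q = v % q
          rw [Nat.mul_add_mod]
        have hne := quad_ne_zero a b c hy.hΔ ((q * (N + j) + v : ℕ) : ℤ)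
        have hsize : (((a * ((q * (N + j) + v : ℕ) : ℤ) ^ 2 + b * ((q * (N + j) + v : ℕ) : ℤ) +
            c).natAbs : ℕ) : ℝ) ≤ (X : ℝ) ^ S := by
          have u1 := size_q a b c (q * (N + j) + v)
          unfold Fq at u1
          rw [← hE] at u1
          have u2 : q * (N + j) + v + 1 ≤ 4 * X := by omega
          have u3 : (q * (N + j) + v + 1) ^ 2 ≤ (4 * X) ^ 2 := Nat.pow_le_pow_left u2 2
          have u4 := u1.trans (Nat.mul_le_mul_left E u3)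
          have u5 : (((a * ((q * (N + j) + v : ℕ) : ℤ) ^ 2 + b * ((q * (N + j) + v : ℕ) : ℤ) +
            c).natAbs : ℕ) : ℝ) ≤ E * (4 * X) ^ 2 := by exact_mod_cast u4
          refine u5.trans ?_
          calc (E : ℝ) * (4 * X) ^ 2 = (E * 16) * (X : ℝ) ^ 2 := by ring
            _ ≤ (X : ℝ) ^ (S - 2) * (X : ℝ) ^ 2 := mul_le_mul_of_nonneg_right e4 (by positivity)
            _ = (X : ℝ) ^ S := by
                rw [← Real.rpow_natCast (X : ℝ) 2, ← Real.rpow_add hX0]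
                congr 1
                push_cast
                ring
        have hres := almost X (by omega) ζ υ lam S r hζυ hυ0 hυ1 hlam hr
          _ (Int.natAbs_ne_zero.2 hne) hsize hj5 (by
            intro l hl hld
            apply hj6 l hl
            rw [hval]
            exact Int.natCast_dvd.2 hld)
        exact ⟨hres.1, fun p hp hpd => hres.2 p hp (Int.natCast_dvd.1 hpd)⟩
      · intro x _ y _ hxy
        have h1 : q * (N + x) + v = q * (N + y) + v := hxy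
        have h2 : q * (N + x) = q * (N + y) := by omega
        have h3 := Nat.eq_of_mul_eq_mul_left hq h2
        omega
    have g3r : ((posS (GG a b c q v) X ζ υ lam (lam / υ) L N).card : ℝ) ≤
        (hc a b c q v r ((X : ℝ) ^ ζ) M H : ℝ) := by exact_mod_cast g3
    refine g3r.trans_lt (hM3.trans_le ?_)
    calc δ * v0 / 2 * (X : ℝ) ^ h / (q * dens a b c q * Real.log X) =
        δ * ((X : ℝ) ^ h / (2 * q)) * (v0 / Real.log X / dens a b c q) := by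
          field_simp
      _ ≤ δ * L * (v0 / Real.log X / dens a b c q) := by
          apply mul_le_mul_of_nonneg_right _ (by positivity)
          exact mul_le_mul_of_nonneg_left hLr hδ.le
      _ ≤ _ := mul_le_mul_of_nonneg_left hlo (by positivity)
  have hXh0 : (0 : ℝ) < (X : ℝ) ^ h := by positivity
  have hc1 : (((Icc 1 (2 * X)).filter (fun M => (hc a b c q v r ((X : ℝ) ^ ζ) M H : ℝ) <
        δ * v0 / 2 * (X : ℝ) ^ h / (q * dens a b c q * Real.log X))).card : ℝ) ≤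
        q + q * (A1.card : ℝ) := by
    have u1 := (card_le_card hsub).trans (card_union_le _ _)
    rw [Nat.card_Ico] at u1
    have u2 := fib_div q (2 * X) hq A1
    have u3 : ((Icc 1 (2 * X)).filter (fun M => (hc a b c q v r ((X : ℝ) ^ ζ) M H : ℝ) <
        δ * v0 / 2 * (X : ℝ) ^ h / (q * dens a b c q * Real.log X))).card ≤ q + q * A1.card := by omega
    exact_mod_cast u3
  refine hc1.trans ?_
  have hA' : (A1.card : ℝ) ≤ 6 * (X : ℝ) ^ (2 * τ - h + κ + ε) := by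
    refine hA.trans ?_
    have u1 : (X : ℝ) ≤ (X : ℝ) ^ (2 * τ) := by
      calc (X : ℝ) = (X : ℝ) ^ (1 : ℝ) := (Real.rpow_one _).symm
        _ ≤ _ := Real.rpow_le_rpow_of_exponent_le hX1r (by linarith)
    calc (((2 * X : ℕ) : ℝ) + (X : ℝ) ^ (2 * τ)) / L * (X : ℝ) ^ ε ≤
        (3 * (X : ℝ) ^ (2 * τ)) / ((X : ℝ) ^ h / (2 * q)) * (X : ℝ) ^ ε := by
          apply mul_le_mul_of_nonneg_right _ (by positivity)
          apply div_le_div₀ (by positivity) (by push_cast; linarith) (by positivity) hLr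
      _ = 6 * q * ((X : ℝ) ^ (2 * τ) / (X : ℝ) ^ h * (X : ℝ) ^ ε) := by
          field_simp
          norm_num
      _ ≤ 6 * (X : ℝ) ^ κ * ((X : ℝ) ^ (2 * τ) / (X : ℝ) ^ h * (X : ℝ) ^ ε) := by gcongr
      _ = 6 * (X : ℝ) ^ (2 * τ - h + κ + ε) := by
          rw [← Real.rpow_sub hX0, ← Real.rpow_add hX0, mul_assoc, ← Real.rpow_add hX0]
          congr 2
          ring
  have hone : 1 ≤ (X : ℝ) ^ (2 * τ - h + κ + ε) := Real.one_le_rpow hX1r (by linarith)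
  calc (q : ℝ) + q * (A1.card : ℝ) ≤ (X : ℝ) ^ κ * (8 * (X : ℝ) ^ (2 * τ - h + κ + ε)) := by
        have u1 : (1 : ℝ) + A1.card ≤ 8 * (X : ℝ) ^ (2 * τ - h + κ + ε) := by linarith
        calc (q : ℝ) + q * (A1.card : ℝ) = q * (1 + A1.card) := by ring
          _ ≤ _ := mul_le_mul hqX u1 (by positivity) (by positivity)
    _ = 8 * ((X : ℝ) ^ κ * (X : ℝ) ^ (2 * τ - h + κ + ε)) := by ring
    _ = _ := by
        rw [← Real.rpow_add hX0]
        congr 2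
        ring

set_option maxHeartbeats 4000000 in
open Classical in
/-- all residue classes, short windows -/
theorem all_classes (a b c : ℤ) (c1 : ℕ) (v0 : ℝ) (hy : Hyp a b c c1 v0)
    (r : ℕ) (τ ζ υ lam S : ℝ) (hζ : 0 < ζ) (h2 : 2 * ζ < τ)
    (h4 : τ ≤ 4 * ζ) (hτ : τ < 1) (hτ2 : 1 / 2 ≤ τ) (hζυ : ζ ≤ υ) (hυτ : υ < τ)
    (hlam : 0 < lam)
    (hJ0 : ∫ x in ζ..υ, (lam - lam / υ * x) / (τ - x) / x < Real.log (τ / ζ - 1) / τ) (hS : 2 < S)
    (hr : 1 / lam + S / υ ≤ r + 1) (h ε : ℝ) (hh : 0 < h) (hh1 : h ≤ τ) (hε : 0 < ε) :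
    ∃ κ δ : ℝ, 0 < κ ∧ 0 < δ ∧ ∃ X0 : ℕ, ∀ X : ℕ, X0 ≤ X →
      (((Icc 1 (2 * X)).filter (fun M => ∃ q v : ℕ, 0 < q ∧ (q : ℝ) ≤ (X : ℝ) ^ κ ∧ v < q ∧
        Cop a b c q v ∧ (hc a b c q v r ((X : ℝ) ^ ζ) M ⌊(X : ℝ) ^ h⌋₊ : ℝ) <
        δ * (X : ℝ) ^ h / (q * dens a b c q * Real.log X))).card : ℝ) ≤
      (X : ℝ) ^ (2 * τ - h + ε) := by
  obtain ⟨κ, hκ0, hκ1, hκ2, hκ3⟩ : ∃ κ : ℝ, 0 < κ ∧ κ ≤ ζ / 4 ∧ κ ≤ h / 4 ∧ κ ≤ ε / 16 :=
    ⟨min (ζ / 4) (min (h / 4) (ε / 16)), lt_min (by linarith) (lt_min (by linarith) (by linarith)),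
      min_le_left _ _, (min_le_right _ _).trans (min_le_left _ _),
      (min_le_right _ _).trans (min_le_right _ _)⟩
  obtain ⟨δ, hδ, X1, H⟩ := one_class a b c c1 v0 hy r τ ζ υ lam S hζ h2 h4 hτ hτ2 hζυ hυτ hlam hJ0
    hS hr h (ε / 2) κ hh1 (by linarith) hκ0 hκ1 hκ2
  have ev1 : ∀ᶠ Y : ℕ in atTop, (8 : ℝ) ≤ (Y : ℝ) ^ (ε / 4) :=
    ((tendsto_rpow_atTop (by linarith)).comp tendsto_natCast_atTop_atTop).eventually_ge_atTop _
  obtain ⟨X2, hX2⟩ := eventually_atTop.1 (ev1.and (eventually_ge_atTop 3))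
  refine ⟨κ, δ, hκ0, hδ, max X1 X2, fun X hX => ?_⟩
  obtain ⟨e1, e2⟩ := hX2 X ((le_max_right _ _).trans hX)
  have hX1 : X1 ≤ X := (le_max_left _ _).trans hX
  have hXr : (3 : ℝ) ≤ X := by exact_mod_cast e2
  have hX0 : (0 : ℝ) < X := by linarith
  have hX1r : (1 : ℝ) ≤ X := by linarith
  obtain ⟨Q, hQ⟩ : ∃ Q : ℕ, Q = ⌊(X : ℝ) ^ κ⌋₊ := ⟨_, rfl⟩
  have hQr : (Q : ℝ) ≤ (X : ℝ) ^ κ := by
    rw [hQ]
    exact Nat.floor_le (by positivity)
  set E : ℕ → ℕ → Finset ℕ := fun q v => if Cop a b c q v then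
    (Icc 1 (2 * X)).filter (fun M => (hc a b c q v r ((X : ℝ) ^ ζ) M ⌊(X : ℝ) ^ h⌋₊ : ℝ) <
        δ * (X : ℝ) ^ h / (q * dens a b c q * Real.log X)) else ∅ with hE
  have hEc : ∀ q ∈ Icc 1 Q, ∀ v ∈ range q, ((E q v).card : ℝ) ≤
      8 * (X : ℝ) ^ (2 * τ - h + 2 * κ + ε / 2) := by
    intro q hq v hv
    rw [mem_Icc] at hq
    rw [mem_range] at hv
    simp only [hE]
    split_ifs with hcop
    · apply H X hX1 q v (by omega) _ hv hcop
      refine le_trans ?_ hQr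
      exact_mod_cast hq.2
    · simp only [card_empty, Nat.cast_zero]
      positivity
  have hsub : (Icc 1 (2 * X)).filter (fun M => ∃ q v : ℕ, 0 < q ∧ (q : ℝ) ≤ (X : ℝ) ^ κ ∧ v < q ∧
        Cop a b c q v ∧ (hc a b c q v r ((X : ℝ) ^ ζ) M ⌊(X : ℝ) ^ h⌋₊ : ℝ) <
        δ * (X : ℝ) ^ h / (q * dens a b c q * Real.log X)) ⊆
      (Icc 1 Q).biUnion (fun q => (range q).biUnion (fun v => E q v)) := by
    intro M hM
    rw [mem_filter] at hM
    obtain ⟨hM1, q, v, hq, hqX, hvq, hcop, hlt⟩ := hM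
    rw [mem_biUnion]
    refine ⟨q, ?_, ?_⟩
    · rw [mem_Icc]
      refine ⟨hq, ?_⟩
      rw [hQ]
      exact Nat.le_floor hqX
    · rw [mem_biUnion]
      refine ⟨v, mem_range.2 hvq, ?_⟩
      simp only [hE]
      rw [if_pos hcop, mem_filter]
      exact ⟨hM1, hlt⟩
  have hXp : (0 : ℝ) ≤ 8 * (X : ℝ) ^ (2 * τ - h + 2 * κ + ε / 2) := by positivity
  calc _ ≤ (((Icc 1 Q).biUnion (fun q => (range q).biUnion (fun v => E q v))).card : ℝ) := by
        exact_mod_cast card_le_card hsub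
    _ ≤ ∑ q ∈ Icc 1 Q, ∑ v ∈ range q, ((E q v).card : ℝ) := by
        have u1 : ((Icc 1 Q).biUnion (fun q => (range q).biUnion (fun v => E q v))).card ≤
            ∑ q ∈ Icc 1 Q, ∑ v ∈ range q, (E q v).card := by
          refine card_biUnion_le.trans ?_
          apply sum_le_sum
          intro q _
          exact card_biUnion_le
        exact_mod_cast u1
    _ ≤ ∑ q ∈ Icc 1 Q, ∑ v ∈ range q, 8 * (X : ℝ) ^ (2 * τ - h + 2 * κ + ε / 2) := by
        apply sum_le_sum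
        intro q hq
        apply sum_le_sum
        intro v hv
        exact hEc q hq v hv
    _ = ∑ q ∈ Icc 1 Q, (q : ℝ) * (8 * (X : ℝ) ^ (2 * τ - h + 2 * κ + ε / 2)) := by
        apply sum_congr rfl
        intro q _
        rw [sum_const, nsmul_eq_mul, card_range]
    _ ≤ ∑ q ∈ Icc 1 Q, (Q : ℝ) * (8 * (X : ℝ) ^ (2 * τ - h + 2 * κ + ε / 2)) := by
        apply sum_le_sum
        intro q hq
        rw [mem_Icc] at hq
        apply mul_le_mul_of_nonneg_right _ hXp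
        exact_mod_cast hq.2
    _ = (Q : ℝ) * Q * (8 * (X : ℝ) ^ (2 * τ - h + 2 * κ + ε / 2)) := by
        rw [sum_const, nsmul_eq_mul, Nat.card_Icc]
        simp only [Nat.add_sub_cancel]
        ring
    _ ≤ ((X : ℝ) ^ κ * (X : ℝ) ^ κ) * ((X : ℝ) ^ (ε / 4) * (X : ℝ) ^ (2 * τ - h + 2 * κ + ε / 2)) := by
        apply mul_le_mul _ _ hXp (by positivity)
        · exact mul_le_mul hQr hQr (Nat.cast_nonneg _) (by positivity)
        · exact mul_le_mul_of_nonneg_right e1 (by positivity)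
    _ = (X : ℝ) ^ (2 * τ - h + 4 * κ + 3 * ε / 4) := by
        rw [← Real.rpow_add hX0, ← Real.rpow_add hX0, ← Real.rpow_add hX0]
        congr 1
        ring
    _ ≤ _ := Real.rpow_le_rpow_of_exponent_le hX1r (by linarith)

set_option maxHeartbeats 4000000 in
open Classical in
/-- **All lengths.** -/
theorem all_lengths (a b c : ℤ) (c1 : ℕ) (v0 : ℝ) (hy : Hyp a b c c1 v0)
    (r : ℕ) (τ ζ υ lam S : ℝ) (hζ : 0 < ζ) (h2 : 2 * ζ < τ)
    (h4 : τ ≤ 4 * ζ) (hτ : τ < 1) (hτ2 : 1 / 2 ≤ τ) (hζυ : ζ ≤ υ) (hυτ : υ < τ)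
    (hlam : 0 < lam)
    (hJ0 : ∫ x in ζ..υ, (lam - lam / υ * x) / (τ - x) / x < Real.log (τ / ζ - 1) / τ) (hS : 2 < S)
    (hr : 1 / lam + S / υ ≤ r + 1) (h ε : ℝ) (hh : 0 < h) (hh1 : h ≤ 1) (hε : 0 < ε) :
    ∃ κ δ : ℝ, 0 < κ ∧ 0 < δ ∧ ∃ X0 : ℕ, ∀ X : ℕ, X0 ≤ X →
      ((((Icc 1 X).filter (fun M => ∃ q v : ℕ, 0 < q ∧ (q : ℝ) ≤ (X : ℝ) ^ κ ∧ v < q ∧
        Cop a b c q v ∧ (hc a b c q v r ((X : ℝ) ^ ζ) M ⌊(X : ℝ) ^ h⌋₊ : ℝ) <
        δ * (X : ℝ) ^ h / (q * dens a b c q * Real.log X))).card : ℝ) ≤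
      (X : ℝ) ^ (2 * τ - h + ε)) ∧ (τ < h → ∀ M ∈ Icc 1 X, ∀ q v : ℕ, 0 < q →
        (q : ℝ) ≤ (X : ℝ) ^ κ → v < q → Cop a b c q v →
        δ * (X : ℝ) ^ h / (q * dens a b c q * Real.log X) ≤
          (hc a b c q v r ((X : ℝ) ^ ζ) M ⌊(X : ℝ) ^ h⌋₊ : ℝ)) := by
  rcases le_or_gt h τ with hle | hgt
  · obtain ⟨κ, δ, hκ, hδ, X0, H⟩ := all_classes a b c c1 v0 hy r τ ζ υ lam S hζ h2 h4 hτ hτ2 hζυ hυτ
      hlam hJ0 hS hr h ε hh hle hε
    refine ⟨κ, δ, hκ, hδ, X0, fun X hX => ⟨le_trans ?_ (H X hX), fun hcon => absurd hcon (not_lt.2 hle)⟩⟩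
    apply Nat.cast_le.2
    apply card_le_card
    apply filter_subset_filter
    apply Icc_subset_Icc_right
    omega
  · obtain ⟨κ, δ, hκ, hδ, X0, H⟩ := all_classes a b c c1 v0 hy r τ ζ υ lam S hζ h2 h4 hτ hτ2 hζυ hυτ
      hlam hJ0 hS hr τ ((h - τ) / 2) (by linarith) le_rfl (by linarith)
    have ev1 : ∀ᶠ Y : ℕ in atTop, (16 : ℝ) ≤ (Y : ℝ) ^ ((h - τ) / 2) :=
      ((tendsto_rpow_atTop (by linarith)).comp tendsto_natCast_atTop_atTop).eventually_ge_atTop _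
    have ev2 : ∀ᶠ Y : ℕ in atTop, (2 : ℝ) ≤ (Y : ℝ) ^ τ :=
      ((tendsto_rpow_atTop (by linarith)).comp tendsto_natCast_atTop_atTop).eventually_ge_atTop _
    obtain ⟨X1, hX1⟩ := eventually_atTop.1 (ev1.and (ev2.and (eventually_ge_atTop 3)))
    refine ⟨κ, δ / 2, hκ, by positivity, max X0 X1, fun X hX => ?_⟩
    obtain ⟨e1, e2, e3⟩ := hX1 X ((le_max_right _ _).trans hX)
    have hE := H X ((le_max_left _ _).trans hX)
    have hXr : (3 : ℝ) ≤ X := by exact_mod_cast e3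
    have hXp : (0 : ℝ) < X := by linarith
    have hX1r : (1 : ℝ) ≤ X := by linarith
    have hlX : 0 < Real.log X := Real.log_pos (by linarith)
    have hmain : ∀ M ∈ Icc 1 X, ∀ q v : ℕ, 0 < q →
        (q : ℝ) ≤ (X : ℝ) ^ κ → v < q → Cop a b c q v →
        δ / 2 * (X : ℝ) ^ h / (q * dens a b c q * Real.log X) ≤
          (hc a b c q v r ((X : ℝ) ^ ζ) M ⌊(X : ℝ) ^ h⌋₊ : ℝ) := by
      intro N hN q v hq hqX hvq hcop
      rw [mem_Icc] at hN
      have hq0 : (0 : ℝ) < q := by exact_mod_cast hq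
      have hdp := dens_pos a b c hy.adm q
      set L : ℕ := ⌊(X : ℝ) ^ τ⌋₊ with hL
      set K : ℕ := ⌊(X : ℝ) ^ h⌋₊ with hK
      have hL1 : (L : ℝ) ≤ (X : ℝ) ^ τ := Nat.floor_le (by positivity)
      have hL2 : 1 ≤ L := by
        rw [hL]
        exact Nat.le_floor (by push_cast; linarith)
      have hLr : (0 : ℝ) < L := by exact_mod_cast hL2
      have hK1 : (K : ℝ) ≤ (X : ℝ) ^ h := Nat.floor_le (by positivity)
      have hKX : (K : ℝ) ≤ X := by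
        refine hK1.trans ?_
        calc (X : ℝ) ^ h ≤ (X : ℝ) ^ (1 : ℝ) := Real.rpow_le_rpow_of_exponent_le hX1r hh1
          _ = X := Real.rpow_one _
      have hKXn : K ≤ X := by exact_mod_cast hKX
      have hK2 : (X : ℝ) ^ h - 1 < K := by
        have := Nat.lt_floor_add_one ((X : ℝ) ^ h)
        rw [← hK] at this
        linarith
      have hbig : 16 * (X : ℝ) ^ (2 * τ - τ + (h - τ) / 2) ≤ (X : ℝ) ^ h := by
        calc 16 * (X : ℝ) ^ (2 * τ - τ + (h - τ) / 2) ≤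
            (X : ℝ) ^ ((h - τ) / 2) * (X : ℝ) ^ (2 * τ - τ + (h - τ) / 2) :=
              mul_le_mul_of_nonneg_right e1 (by positivity)
          _ = (X : ℝ) ^ h := by
              rw [← Real.rpow_add hXp]
              congr 1
              ring
      have hτh : (X : ℝ) ^ τ ≤ (X : ℝ) ^ (2 * τ - τ + (h - τ) / 2) :=
        Real.rpow_le_rpow_of_exponent_le hX1r (by linarith)
      have hLK : L ≤ K := by
        have : (L : ℝ) ≤ K := by linarith
        exact_mod_cast this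
      have hB0 : 0 ≤ δ * (X : ℝ) ^ τ / (q * dens a b c q * Real.log X) := by positivity
      have hm := long_of_short (Gd a b c q v r ((X : ℝ) ^ ζ)) N L K (2 * X)
        (δ * (X : ℝ) ^ τ / (q * dens a b c q * Real.log X))
        ((X : ℝ) ^ (2 * τ - τ + (h - τ) / 2)) (by omega) hLK hN.1 (by omega) hB0 (by
          refine le_trans ?_ hE
          apply Nat.cast_le.2
          apply card_le_card
          intro n hn
          rw [mem_filter] at hn ⊢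
          exact ⟨hn.1, q, v, hq, hqX, hvq, hcop, hn.2⟩)
      have h9 : (X : ℝ) ^ h / 2 ≤ (K : ℝ) - L - (X : ℝ) ^ (2 * τ - τ + (h - τ) / 2) := by linarith
      have h10 : (X : ℝ) ^ h / 2 * (δ * (X : ℝ) ^ τ / (q * dens a b c q * Real.log X)) ≤
          (X : ℝ) ^ τ * (((Ioc N (N + K)).filter (Gd a b c q v r ((X : ℝ) ^ ζ))).card : ℝ) :=
        (mul_le_mul_of_nonneg_right h9 hB0).trans (hm.trans
          (mul_le_mul_of_nonneg_right hL1 (Nat.cast_nonneg _)))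
      have h11 : (X : ℝ) ^ h / 2 * (δ * (X : ℝ) ^ τ / (q * dens a b c q * Real.log X)) =
          (X : ℝ) ^ τ * (δ / 2 * (X : ℝ) ^ h / (q * dens a b c q * Real.log X)) := by ring
      rw [h11] at h10
      exact le_of_mul_le_mul_left h10 (by positivity)
    refine ⟨?_, fun _ => hmain⟩
    have hemp : (Icc 1 X).filter (fun M => ∃ q v : ℕ, 0 < q ∧ (q : ℝ) ≤ (X : ℝ) ^ κ ∧ v < q ∧
        Cop a b c q v ∧ (hc a b c q v r ((X : ℝ) ^ ζ) M ⌊(X : ℝ) ^ h⌋₊ : ℝ) <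
        δ / 2 * (X : ℝ) ^ h / (q * dens a b c q * Real.log X)) = ∅ := by
      rw [filter_eq_empty_iff]
      rintro M hM ⟨q, v, hq, hqX, hvq, hcop, hlt⟩
      exact absurd hlt (not_lt.2 (hmain M hM q v hq hqX hvq hcop))
    rw [hemp]
    simp only [card_empty, Nat.cast_zero]
    positivity

/-- the admissible quadratic polynomials -/
theorem hyp_q (a b c : ℤ) (ha : 0 < a)
    (hg : ∀ p : ℕ, p.Prime → ¬ ((p : ℤ) ∣ a ∧ (p : ℤ) ∣ b ∧ (p : ℤ) ∣ c))
    (hpar : ¬ (Even (a + b) ∧ Even c)) (hD : ¬ IsSquare (b ^ 2 - 4 * a * c)) :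
    ∃ (c1 : ℕ) (v0 : ℝ), Hyp a b c c1 v0 := by
  classical
  have hsys := qs_sys a b c ha hg hpar hD
  obtain ⟨c1, hc1, hQ⟩ := exists_c (qs a b c) hsys
  obtain ⟨v, Cv, hv, hCv, hV⟩ := V_bounds (qs a b c) hsys
  refine ⟨c1 + 2, v, ⟨ha.ne', hD, ?_, by omega, ?_, hv, ?_⟩⟩
  · intro p hp
    rw [DQ_eq]
    exact (hQ.few p hp).trans (by omega)
  · intro p hp
    rw [DQ_eq]
    exact adm (qs a b c) hsys p hp
  · intro y hy
    have := (hV y hy).1
    rw [DQ_eq]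
    simpa using this

end Pool.Agent.L0h41.SI
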