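import Pool.Agent.L0h41.SI.EngL
import Pool.Agent.L0h41.LW.E
import Pool.Agent.Y882.MG.Quad2

set_option autoImplicit false

/-!
# Quadratic polynomials in arithmetic progressions
-/

namespace Pool.Agent.L0h41.SI

open Finset Polynomial Filter
open Pool.Agent.W123.RP Pool.Agent.H373R2.T7 Pool.Agent.W123.RU Pool.Agent.TH464.PO
open Pool.Agent.W123.RU.Poly
open Pool.Agent.W23.DC Pool.Agent.Y882 Pool.Agent.Y882.KW Pool.Agent.Y882.SI
open Pool.Agent.Y882.PX Pool.Agent.Y882.MG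
open Pool.Agent.L0h41.LW

/-- the polynomial `f(q x + v)` -/
noncomputable def GG (a b c : ℤ) (q v : ℕ) : ℤ[X] :=
  C (a * (q : ℤ) ^ 2) * X ^ 2 + C ((2 * a * v + b) * q) * X + C (a * (v : ℤ) ^ 2 + b * v + c)

theorem GG_eval (a b c : ℤ) (q v : ℕ) (n : ℤ) :
    (GG a b c q v).eval n = a * (q * n + v) ^ 2 + b * (q * n + v) + c := by
  unfold GG
  simp
  ring

theorem GG_eval' (a b c : ℤ) (q v : ℕ) (n : ℤ) :
    (GG a b c q v).eval n = (a * (q : ℤ) ^ 2) * n ^ 2 + ((2 * a * v + b) * q) * n +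
      (a * (v : ℤ) ^ 2 + b * v + c) := by
  rw [GG_eval]
  ring

theorem ro_dvd (a b c : ℤ) (q v p : ℕ) (hpq : p ∣ q) (hv : ¬ (p : ℤ) ∣ a * (v : ℤ) ^ 2 + b * v + c) :
    ro (GG a b c q v) 0 p = 0 := by
  rw [ro_eq, card_eq_zero, filter_eq_empty_iff]
  intro n _
  rw [add_zero, GG_eval']
  intro h
  apply hv
  have hq : (p : ℤ) ∣ (q : ℤ) := by exact_mod_cast hpq
  have h1 : (p : ℤ) ∣ (a * (q : ℤ) ^ 2) * (n : ℤ) ^ 2 + ((2 * a * v + b) * q) * (n : ℤ) := by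
    have e : (a * (q : ℤ) ^ 2) * (n : ℤ) ^ 2 + ((2 * a * v + b) * q) * (n : ℤ) =
      q * ((a * q) * (n : ℤ) ^ 2 + (2 * a * v + b) * n) := by ring
    rw [e]
    exact hq.mul_right _
  exact (dvd_add_right h1).1 h

theorem ro_ndvd (a b c : ℤ) (q v p : ℕ) (hp : p.Prime) (hpq : ¬ p ∣ q) :
    ro (GG a b c q v) 0 p = nuB (DQ (Fq a b c)) p := by
  classical
  have hpZ : Prime (p : ℤ) := Nat.prime_iff_prime_int.1 hp
  have hp0 : (0 : ℤ) < p := by exact_mod_cast hp.pos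
  have hpq' : ¬ (p : ℤ) ∣ (q : ℤ) := by
    intro h
    exact hpq (by exact_mod_cast h)
  have hcop : IsCoprime (p : ℤ) (q : ℤ) := (Prime.coprime_iff_not_dvd hpZ).2 hpq'
  obtain ⟨u, w, huw⟩ := hcop
  have hw : (p : ℤ) ∣ w * q - 1 := ⟨-u, by linarith⟩
  have hmodd : ∀ x : ℤ, (p : ℤ) ∣ ((x % p).toNat : ℤ) - x := by
    intro x
    rw [Int.toNat_of_nonneg (Int.emod_nonneg _ hp0.ne')]
    exact (Int.dvd_self_sub_emod).neg_right.trans (by rw [neg_sub])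
  have hmodlt : ∀ x : ℤ, (x % p).toNat < p := by
    intro x
    have h1 := Int.emod_lt_of_pos x hp0
    have h2 := Int.emod_nonneg x hp0.ne'
    omega
  have huniq : ∀ (x : ℤ) (r : ℕ), r < p → (p : ℤ) ∣ x - r → (x % p).toNat = r := by
    intro x r hr h
    have h1 : x % p = r := by
      have h2 : (x : ℤ) ≡ r [ZMOD p] := (Int.modEq_iff_dvd.2 (by
        have := dvd_neg.2 h
        rwa [neg_sub] at this))
      rw [h2.eq]
      exact Int.emod_eq_of_lt (by positivity) (by exact_mod_cast hr)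
    rw [h1]
    simp
  have hperG : ∀ n m : ℤ, (p : ℤ) ∣ n - m → ((p : ℤ) ∣ a * n ^ 2 + b * n + c ↔
      (p : ℤ) ∣ a * m ^ 2 + b * m + c) := by
    intro n m h
    have h1 : (p : ℤ) ∣ (a * n ^ 2 + b * n + c) - (a * m ^ 2 + b * m + c) := by
      have e : (a * n ^ 2 + b * n + c) - (a * m ^ 2 + b * m + c) =
        (n - m) * (a * (n + m) + b) := by ring
      rw [e]
      exact h.mul_right _
    exact (dvd_iff_dvd_of_dvd_sub h1)
  unfold nuB
  rw [ro_eq]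
  refine card_nbij' (fun r : ℕ => (((q : ℤ) * r + v) % p).toNat)
    (fun s : ℕ => ((w * ((s : ℤ) - v)) % p).toNat) ?_ ?_ ?_ ?_
  · intro r hr
    simp only [coe_filter, Set.mem_ofPred_eq, mem_range, DQ_iff, add_zero, GG_eval] at hr ⊢
    refine ⟨hmodlt _, ?_⟩
    rw [hperG _ _ (hmodd _)]
    exact hr.2
  · intro s hs
    simp only [coe_filter, Set.mem_ofPred_eq, mem_range, DQ_iff, add_zero, GG_eval] at hs ⊢
    refine ⟨hmodlt _, ?_⟩
    rw [hperG _ (s : ℤ)]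
    · exact hs.2
    · have e : (q : ℤ) * (((w * ((s : ℤ) - v)) % p).toNat : ℤ) + v - s =
        q * ((((w * ((s : ℤ) - v)) % p).toNat : ℤ) - w * ((s : ℤ) - v)) +
          (w * q - 1) * (s - v) := by ring
      rw [e]
      exact dvd_add ((hmodd _).mul_left _) (hw.mul_right _)
  · intro r hr
    simp only [coe_filter, Set.mem_ofPred_eq, mem_range] at hr
    apply huniq _ _ hr.1
    have h1 := hmodd ((q : ℤ) * r + v)
    have e : w * (((((q : ℤ) * r + v) % p).toNat : ℤ) - v) - r =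
      w * (((((q : ℤ) * r + v) % p).toNat : ℤ) - ((q : ℤ) * r + v)) + (w * q - 1) * r := by ring
    rw [e]
    exact dvd_add (h1.mul_left _) (hw.mul_right _)
  · intro s hs
    simp only [coe_filter, Set.mem_ofPred_eq, mem_range] at hs
    apply huniq _ _ hs.1
    have h1 := hmodd (w * ((s : ℤ) - v))
    have e : (q : ℤ) * (((w * ((s : ℤ) - v)) % p).toNat : ℤ) + v - s =
        q * ((((w * ((s : ℤ) - v)) % p).toNat : ℤ) - w * ((s : ℤ) - v)) +
          (w * q - 1) * (s - v) := by ring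
    rw [e]
    exact dvd_add (h1.mul_left _) (hw.mul_right _)

/-- the number of prime factors -/
theorem omega_le (q : ℕ) (hq : 0 < q) : 2 ^ q.primeFactors.card ≤ q := by
  calc 2 ^ q.primeFactors.card = ∏ p ∈ q.primeFactors, 2 := by rw [prod_const]
    _ ≤ ∏ p ∈ q.primeFactors, p := by
        apply prod_le_prod'
        intro p hp
        exact (Nat.prime_of_mem_primeFactors hp).two_le
    _ ≤ q := Nat.le_of_dvd hq (Nat.prod_primeFactors_dvd q)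

/-- coprime to the modulus -/
def Cop (a b c : ℤ) (q v : ℕ) : Prop :=
  ∀ p : ℕ, p.Prime → p ∣ q → ¬ (p : ℤ) ∣ a * (v : ℤ) ^ 2 + b * v + c

theorem ro_le (a b c : ℤ) (c1 : ℕ) (hc1 : ∀ p : ℕ, p.Prime → nuB (DQ (Fq a b c)) p ≤ c1) (q v : ℕ)
    (hcop : Cop a b c q v) (p : ℕ) (hp : p.Prime) : ro (GG a b c q v) 0 p ≤ c1 := by
  by_cases h : p ∣ q
  · rw [ro_dvd a b c q v p h (hcop p hp h)]
    omega
  · rw [ro_ndvd a b c q v p hp h]
    exact hc1 p hp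

theorem mer_G (a b c : ℤ) (ha : a ≠ 0) (hΔ : ¬ IsSquare (b ^ 2 - 4 * a * c)) (c1 : ℕ)
    (hc1 : ∀ p : ℕ, p.Prime → nuB (DQ (Fq a b c)) p ≤ c1) (ε₁ υ η : ℝ)
    (hε : 0 < ε₁) (hυ : υ ≤ 1) (hη : 0 < η) : ∀ᶠ Y : ℕ in atTop, ∀ q v : ℕ, 0 < q → q ≤ Y →
      Cop a b c q v →
      Mer (pr Y ε₁ υ) (tt Y) (fun p => (ro (GG a b c q v) 0 p : ℝ) / p) ε₁ υ η := by
  have hm := mer_q a b c ha hΔ ε₁ υ (η / 2) hε hυ (by linarith)
  have ev1 : ∀ᶠ Y : ℕ in atTop, 2 * Real.log Y * c1 ≤ (η / 2) * (Y : ℝ) ^ ε₁ := by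
    have h1 := (isLittleO_log_rpow_atTop hε).bound
      (show (0 : ℝ) < (η / 2) / (2 * (c1 + 1 : ℝ)) by positivity)
    filter_upwards [tendsto_natCast_atTop_atTop.eventually h1, eventually_ge_atTop 1] with Y hY hY1
    have hY1r : (1 : ℝ) ≤ Y := by exact_mod_cast hY1
    rw [Real.norm_of_nonneg (Real.log_nonneg hY1r), Real.norm_of_nonneg (by positivity)] at hY
    rw [div_mul_eq_mul_div, le_div_iff₀ (by positivity)] at hY
    have := Real.log_nonneg hY1r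
    nlinarith
  filter_upwards [hm, ev1, eventually_ge_atTop 3] with Y h1 h2 h3 q v hq0 hqY hcop
  have hYr : (3 : ℝ) ≤ Y := by exact_mod_cast h3
  have hY0 : (0 : ℝ) < Y := by linarith
  intro a' b' ha' hab' hb'
  have h4 := h1 a' b' ha' hab' hb'
  set S := (pr Y ε₁ υ).filter (fun p => a' ≤ tt Y p ∧ tt Y p < b') with hS
  have hSp : ∀ p ∈ S, p.Prime ∧ (Y : ℝ) ^ ε₁ ≤ p := by
    intro p hp
    rw [hS, mem_filter] at hp
    obtain ⟨u1, u2, _⟩ := pr_mem Y p ε₁ υ (by omega) hp.1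
    exact ⟨u1, u2⟩
  have hdiff : ∑ p ∈ S, gp (Fq a b c) p - ∑ p ∈ S, (ro (GG a b c q v) 0 p : ℝ) / p =
      ∑ p ∈ S.filter (fun p => p ∣ q), gp (Fq a b c) p := by
    have e0 : ∑ p ∈ S.filter (fun p => p ∣ q), gp (Fq a b c) p =
        ∑ p ∈ S, if p ∣ q then gp (Fq a b c) p else 0 := sum_filter _ _
    rw [← sum_sub_distrib, e0]
    apply sum_congr rfl
    intro p hp
    obtain ⟨hpp, _⟩ := hSp p hp
    split_ifs with hd
    · rw [ro_dvd a b c q v p hd (hcop p hpp hd)]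
      simp
    · rw [ro_ndvd a b c q v p hpp hd]
      unfold gp
      ring
  have hnn : 0 ≤ ∑ p ∈ S.filter (fun p => p ∣ q), gp (Fq a b c) p :=
    sum_nonneg (fun p _ => gp_nonneg _ p)
  have hYε : (0 : ℝ) < (Y : ℝ) ^ ε₁ := by positivity
  have hcard : ((S.filter (fun p => p ∣ q)).card : ℝ) ≤ 2 * Real.log Y := by
    have e1 : S.filter (fun p => p ∣ q) ⊆ q.primeFactors := by
      intro p hp
      rw [mem_filter] at hp
      rw [Nat.mem_primeFactors]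
      exact ⟨(hSp p hp.1).1, hp.2, hq0.ne'⟩
    have e2 : ((S.filter (fun p => p ∣ q)).card : ℝ) ≤ (q.primeFactors.card : ℝ) := by
      exact_mod_cast card_le_card e1
    have e3 := omega_le q hq0
    have e4 : ((2 : ℝ)) ^ q.primeFactors.card ≤ Y := by
      have : 2 ^ q.primeFactors.card ≤ Y := e3.trans hqY
      exact_mod_cast this
    have e5 : (q.primeFactors.card : ℝ) * Real.log 2 ≤ Real.log Y := by
      rw [← Real.log_pow]
      exact Real.log_le_log (by positivity) e4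
    have e6 : (0.5 : ℝ) ≤ Real.log 2 := by
      have := Real.log_two_gt_d9
      linarith
    have e7 : (0 : ℝ) ≤ (q.primeFactors.card : ℝ) := Nat.cast_nonneg _
    nlinarith
  have hup : ∑ p ∈ S.filter (fun p => p ∣ q), gp (Fq a b c) p ≤ η / 2 := by
    calc ∑ p ∈ S.filter (fun p => p ∣ q), gp (Fq a b c) p ≤
        ∑ p ∈ S.filter (fun p => p ∣ q), (c1 : ℝ) / (Y : ℝ) ^ ε₁ := by
          apply sum_le_sum
          intro p hp
          rw [mem_filter] at hp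
          obtain ⟨hpp, hpY⟩ := hSp p hp.1
          unfold gp
          apply div_le_div₀ (Nat.cast_nonneg _) _ hYε hpY
          exact_mod_cast hc1 p hpp
      _ = ((S.filter (fun p => p ∣ q)).card : ℝ) * ((c1 : ℝ) / (Y : ℝ) ^ ε₁) := by
          rw [sum_const, nsmul_eq_mul]
      _ ≤ (2 * Real.log Y) * ((c1 : ℝ) / (Y : ℝ) ^ ε₁) :=
          mul_le_mul_of_nonneg_right hcard (by positivity)
      _ ≤ η / 2 := by
          rw [mul_div_assoc', div_le_iff₀ hYε]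
          linarith
  rw [abs_le] at h4 ⊢
  constructor <;> linarith [h4.1, h4.2]

/-- the share of the classes modulo `q` in which `f` is prime to `q` -/
noncomputable def dens (a b c : ℤ) (q : ℕ) : ℝ :=
  ∏ p ∈ q.primeFactors, (1 - (((range p).filter (fun n : ℕ =>
    (p : ℤ) ∣ a * (n : ℤ) ^ 2 + b * n + c)).card : ℝ) / p)

theorem nuB_eq (a b c : ℤ) (p : ℕ) : nuB (DQ (Fq a b c)) p =
    ((range p).filter (fun n : ℕ => (p : ℤ) ∣ a * (n : ℤ) ^ 2 + b * n + c)).card := by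
  classical
  unfold nuB
  congr 1
  ext n
  simp only [mem_filter, DQ_iff]

theorem dens_eq (a b c : ℤ) (q : ℕ) : dens a b c q =
    ∏ p ∈ q.primeFactors, (1 - (nuB (DQ (Fq a b c)) p : ℝ) / p) := by
  unfold dens
  apply prod_congr rfl
  intro p _
  rw [nuB_eq]

theorem dens_pos (a b c : ℤ) (hadm : ∀ p : ℕ, p.Prime → nuB (DQ (Fq a b c)) p < p) (q : ℕ) :
    0 < dens a b c q := by
  rw [dens_eq]
  apply prod_pos
  intro p hp
  have hpp := Nat.prime_of_mem_primeFactors hp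
  have hp0 : (0 : ℝ) < p := by exact_mod_cast hpp.pos
  rw [sub_pos, div_lt_one hp0]
  exact_mod_cast hadm p hpp

theorem dens_le (a b c : ℤ) (hadm : ∀ p : ℕ, p.Prime → nuB (DQ (Fq a b c)) p < p) (q : ℕ) :
    dens a b c q ≤ 1 := by
  rw [dens_eq]
  apply prod_le_one
  · intro p hp
    have hpp := Nat.prime_of_mem_primeFactors hp
    have hp0 : (0 : ℝ) < p := by exact_mod_cast hpp.pos
    rw [sub_nonneg, div_le_one hp0]
    exact_mod_cast (hadm p hpp).le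
  · intro p hp
    have : (0 : ℝ) ≤ (nuB (DQ (Fq a b c)) p : ℝ) / p := by positivity
    linarith

theorem lo_G (a b c : ℤ) (hadm : ∀ p : ℕ, p.Prime → nuB (DQ (Fq a b c)) p < p) (v0 : ℝ)
    (hV : ∀ y : ℕ, 3 ≤ y → v0 / Real.log y ≤ Vq (DQ (Fq a b c)) y) (Y : ℕ) (hY : 3 ≤ Y)
    (q v : ℕ) (hq : 0 < q) (hqY : q ≤ Y) (hcop : Cop a b c q v) :
    v0 / Real.log Y / dens a b c q ≤ lo (GG a b c q v) Y := by
  classical
  rw [div_le_iff₀ (dens_pos a b c hadm q)]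
  refine (hV Y hY).trans (le_of_eq ?_)
  unfold Vq lo
  have hpz : pz Y = (Icc 1 Y).filter Nat.Prime := rfl
  rw [hpz, dens_eq]
  rw [← prod_filter_mul_prod_filter_not ((Icc 1 Y).filter Nat.Prime) (fun p => p ∣ q)
    (fun p => 1 - (nuB (DQ (Fq a b c)) p : ℝ) / p)]
  rw [← prod_filter_mul_prod_filter_not ((Icc 1 Y).filter Nat.Prime) (fun p => p ∣ q)
    (fun p => 1 - (ro (GG a b c q v) 0 p : ℝ) / p)]
  have e1 : ((Icc 1 Y).filter Nat.Prime).filter (fun p => p ∣ q) = q.primeFactors := by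
    ext p
    simp only [mem_filter, mem_Icc, Nat.mem_primeFactors]
    constructor
    · rintro ⟨⟨_, h1⟩, h2⟩
      exact ⟨h1, h2, hq.ne'⟩
    · rintro ⟨h1, h2, _⟩
      exact ⟨⟨⟨h1.one_le, (Nat.le_of_dvd hq h2).trans hqY⟩, h1⟩, h2⟩
  have e2 : ∏ p ∈ ((Icc 1 Y).filter Nat.Prime).filter (fun p => p ∣ q),
      (1 - (ro (GG a b c q v) 0 p : ℝ) / p) = 1 := by
    apply prod_eq_one
    intro p hp
    rw [mem_filter, mem_filter] at hp
    rw [ro_dvd a b c q v p hp.2 (hcop p hp.1.2 hp.2)]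
    simp
  have e3 : ∏ p ∈ ((Icc 1 Y).filter Nat.Prime).filter (fun p => ¬ p ∣ q),
      (1 - (ro (GG a b c q v) 0 p : ℝ) / p) =
      ∏ p ∈ ((Icc 1 Y).filter Nat.Prime).filter (fun p => ¬ p ∣ q),
      (1 - (nuB (DQ (Fq a b c)) p : ℝ) / p) := by
    apply prod_congr rfl
    intro p hp
    rw [mem_filter, mem_filter] at hp
    rw [ro_ndvd a b c q v p hp.1.2 hp.2]
  rw [e2, e3, e1]
  ring

theorem disc_G (a b c : ℤ) (q v : ℕ) :
    ((2 * a * v + b) * (q : ℤ)) ^ 2 - 4 * (a * (q : ℤ) ^ 2) * (a * (v : ℤ) ^ 2 + b * v + c) =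
      (q : ℤ) ^ 2 * (b ^ 2 - 4 * a * c) := by ring

theorem disc_ns (a b c : ℤ) (hΔ : ¬ IsSquare (b ^ 2 - 4 * a * c)) (q v : ℕ) (hq : 0 < q) :
    ¬ IsSquare (((2 * a * v + b) * (q : ℤ)) ^ 2 -
      4 * (a * (q : ℤ) ^ 2) * (a * (v : ℤ) ^ 2 + b * v + c)) := by
  rw [disc_G]
  rintro ⟨s, hs⟩
  have hq0 : (q : ℤ) ≠ 0 := by exact_mod_cast hq.ne'
  have h1 : (q : ℤ) ^ 2 ∣ s ^ 2 := ⟨b ^ 2 - 4 * a * c, by rw [hs]; ring⟩
  have h2 : (q : ℤ) ∣ s := (Int.pow_dvd_pow_iff (by norm_num)).1 h1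
  obtain ⟨w, rfl⟩ := h2
  apply hΔ
  refine ⟨w, ?_⟩
  have h3 : (q : ℤ) ^ 2 * (b ^ 2 - 4 * a * c) = (q : ℤ) ^ 2 * (w * w) := by
    rw [hs]
    ring
  exact mul_left_cancel₀ (pow_ne_zero 2 hq0) h3

theorem sq_G (a b c : ℤ) (ha : a ≠ 0) (hΔ : ¬ IsSquare (b ^ 2 - 4 * a * c)) (q v : ℕ) (hq : 0 < q)
    (l : ℕ) (hl : l.Prime) (hlq : (a.natAbs + (b ^ 2 - 4 * a * c).natAbs) * q ^ 2 < l) (N H : ℕ) :
    ((((Icc 1 H).filter (fun j : ℕ => ((l ^ 2 : ℕ) : ℤ) ∣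
      (GG a b c q v).eval ((N + j : ℕ) : ℤ))).card : ℕ) : ℝ) ≤
      (2 : ℕ) * (H * (1 / (l : ℝ) ^ 2) + 1) := by
  classical
  have hq0 : (q : ℤ) ≠ 0 := by exact_mod_cast hq.ne'
  have h1 := sq_q (a * (q : ℤ) ^ 2) ((2 * a * v + b) * q) (a * (v : ℤ) ^ 2 + b * v + c)
    (mul_ne_zero ha (pow_ne_zero 2 hq0)) (disc_ns a b c hΔ q v hq) l hl (by
      rw [disc_G, Int.natAbs_mul, Int.natAbs_mul, Int.natAbs_pow, Int.natAbs_natCast]
      calc a.natAbs * q ^ 2 + q ^ 2 * (b ^ 2 - 4 * a * c).natAbs =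
          (a.natAbs + (b ^ 2 - 4 * a * c).natAbs) * q ^ 2 := by ring
        _ < l := hlq) N H
  have e0 : (((Ioc N (N + H)).filter (fun n => l ^ 2 ∣ Fq (a * (q : ℤ) ^ 2) ((2 * a * v + b) * q)
      (a * (v : ℤ) ^ 2 + b * v + c) n)).card : ℝ) =
      (((Icc 1 H).filter (fun j : ℕ => ((l ^ 2 : ℕ) : ℤ) ∣
        (GG a b c q v).eval ((N + j : ℕ) : ℤ))).card : ℝ) := by
    congr 1
    apply Pool.Agent.Y879.AP.count_shift N H
    intro n
    unfold Fq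
    rw [GG_eval', Int.natCast_dvd, add_comm N n]
  rw [e0] at h1
  refine h1.trans (le_of_eq ?_)
  ring

end Pool.Agent.L0h41.SI
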